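import Mathlib

set_option autoImplicit false

namespace Pool.Agent.H.MP_96de0f_al

open Filter Topology

abbrev M : Type := ℤ →₀ ℝ

noncomputable def ev (w : ℤ → ℝ) (n : ℤ) : M →ₗ[ℝ] ℝ :=
  Finsupp.linearCombination ℝ fun k => w (n + k)

lemma ev_apply (w : ℤ → ℝ) (n : ℤ) (P : M) : ev w n P = ∑ k ∈ P.support, P k * w (n + k) := by
  simp [ev, Finsupp.linearCombination_apply, Finsupp.sum]

@[simp] lemma ev_single (w : ℤ → ℝ) (n k : ℤ) (c : ℝ) :
    ev w n (Finsupp.single k c) = c * w (n + k) := by simp [ev]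

noncomputable def sh (t : ℤ) : M →ₗ[ℝ] M := Finsupp.lmapDomain ℝ ℝ (· + t)

@[simp] lemma sh_single (t k : ℤ) (c : ℝ) : sh t (Finsupp.single k c) = Finsupp.single (k + t) c := by
  simp [sh]

lemma sh_apply (t : ℤ) (P : M) (k : ℤ) : sh t P k = P (k - t) := by
  have := Finsupp.mapDomain_apply (add_left_injective t) P (k - t)
  simpa [sh] using this

lemma sh_sh (s t : ℤ) (P : M) : sh s (sh t P) = sh (s + t) P := by
  ext k; simp only [sh_apply]; congr 1; ring

@[simp] lemma sh_zero (P : M) : sh 0 P = P := by ext k; simp [sh_apply]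

lemma ev_sh (w : ℤ → ℝ) (n t : ℤ) (P : M) : ev w n (sh t P) = ev w (n + t) P := by
  induction P using Finsupp.induction_linear with
  | zero => simp
  | add f g hf hg => simp [hf, hg]
  | single a b => simp; left; congr 1; ring

lemma ev_congr {w w' : ℤ → ℝ} {n n' : ℤ} {c : ℝ} {P : M}
    (h : ∀ k, P k ≠ 0 → w (n + k) = c * w' (n' + k)) : ev w n P = c * ev w' n' P := by
  rw [ev_apply, ev_apply, Finset.mul_sum]
  refine Finset.sum_congr rfl fun k hk => ?_
  rw [h k (Finsupp.mem_support_iff.1 hk)]; ring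

noncomputable def mulL (r : ℝ) : M →ₗ[ℝ] M := sh 1 - r • LinearMap.id

lemma mulL_apply (r : ℝ) (Q : M) (k : ℤ) : mulL r Q k = Q (k - 1) - r * Q k := by
  simp [mulL, sh_apply]

lemma ev_mulL (w : ℤ → ℝ) (n : ℤ) (r : ℝ) (Q : M) :
    ev w n (mulL r Q) = ev (fun m => w (m + 1) - r * w m) n Q := by
  induction Q using Finsupp.induction_linear with
  | zero => simp
  | add f g hf hg => simp only [map_add, hf, hg]
  | single a b =>
    simp only [mulL, LinearMap.sub_apply, LinearMap.smul_apply, LinearMap.id_apply, map_sub,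
      map_smul, sh_single, ev_single, smul_eq_mul, add_assoc]
    ring

noncomputable def val (r : ℝ) : M →ₗ[ℝ] ℝ := ev (fun m => r ^ m) 0

lemma val_mulL {r : ℝ} (hr : 0 < r) (Q : M) : val r (mulL r Q) = 0 := by
  rw [val, ev_mulL, ev_apply]
  refine Finset.sum_eq_zero fun k _ => ?_
  rw [zpow_add_one₀ hr.ne']; ring

lemma val_sh {r : ℝ} (hr : 0 < r) (t : ℤ) (P : M) : val r (sh t P) = r ^ t * val r P := by
  rw [val, ev_sh]
  exact ev_congr fun k _ => by rw [zero_add, zero_add, zpow_add₀ hr.ne']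

lemma mulL_inj (r : ℝ) (Q : M) (h : mulL r Q = 0) : Q = 0 := by
  by_contra h0
  have hne : Q.support.Nonempty := Finsupp.support_nonempty_iff.2 h0
  have h1 := Finsupp.mem_support_iff.1 (Q.support.max'_mem hne)
  have h2 : Q (Q.support.max' hne + 1) = 0 := by
    by_contra h3
    have := Q.support.le_max' _ (Finsupp.mem_support_iff.2 h3)
    omega
  have h3 := mulL_apply r Q (Q.support.max' hne + 1)
  rw [h, h2] at h3
  simp at h3
  exact h1 h3.symm

def Win (a b : ℤ) (P : M) : Prop := ∀ k, P k ≠ 0 → a ≤ k ∧ k < b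

lemma divL {r : ℝ} (hr : 0 < r) {a b : ℤ} {P : M} (hP : Win a b P) (h : val r P = 0) :
    ∃ Q, Win a (b - 1) Q ∧ P = mulL r Q := by
  classical
  let q : ℤ → ℝ := fun k => ∑ j ∈ P.support.filter (k < ·), P j * r ^ (j - k - 1)
  have hq : ∀ k, q k ≠ 0 → a ≤ k ∧ k < b - 1 := by
    intro k hk
    constructor
    · by_contra hlt
      apply hk
      have e : P.support.filter (k < ·) = P.support :=
        Finset.filter_true_of_mem fun j hj => by
          have := (hP j (Finsupp.mem_support_iff.1 hj)).1; omega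
      have := ev_apply (fun m => r ^ m) 0 P
      rw [show ev (fun m => r ^ m) 0 P = val r P from rfl, h] at this
      simp only [q, e]
      calc _ = (∑ j ∈ P.support, P j * r ^ (0 + j)) * r ^ (-k - 1) := by
            rw [Finset.sum_mul]
            refine Finset.sum_congr rfl fun j _ => ?_
            rw [mul_assoc, ← zpow_add₀ hr.ne']; congr 2; ring
        _ = 0 := by rw [← this, zero_mul]
    · by_contra hlt
      apply hk
      refine Finset.sum_eq_zero fun j hj => ?_
      rw [Finset.mem_filter] at hj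
      have := (hP j (Finsupp.mem_support_iff.1 hj.1)).2
      omega
  refine ⟨Finsupp.onFinset (Finset.Ico a (b - 1)) q (fun k hk => Finset.mem_Ico.2 (hq k hk)),
    hq, ?_⟩
  ext k
  rw [mulL_apply, Finsupp.onFinset_apply, Finsupp.onFinset_apply]
  simp only [q, Finset.sum_filter, Finset.mul_sum, ← Finset.sum_sub_distrib]
  rw [Finset.sum_eq_single k]
  · simp
  · intro j _ hjk
    by_cases h1 : k < j
    · rw [if_pos h1, if_pos (by omega), show j - (k - 1) - 1 = (j - k - 1) + 1 by ring,
        zpow_add_one₀ hr.ne']; ring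
    · rw [if_neg h1, if_neg (by omega)]; simp
  · intro hk
    simp [Finsupp.notMem_support_iff.1 hk]

lemma exWin (P : M) : ∃ d : ℕ, Win (-d) d P := by
  obtain ⟨d, hd⟩ := (P.support.image Int.natAbs).exists_le
  refine ⟨d + 1, fun k hk => ?_⟩
  have := hd _ (Finset.mem_image_of_mem _ (Finsupp.mem_support_iff.2 hk))
  omega

lemma exWinF {F : Set M} (hF : F.Finite) : ∃ d : ℕ, ∀ P ∈ F, Win (-d) d P := by
  choose d hd using exWin
  obtain ⟨D, hD⟩ := (hF.image d).bddAbove
  refine ⟨D, fun P hP k hk => ?_⟩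
  have := hD ⟨P, hP, rfl⟩
  have := hd P k hk
  omega

structure IsOrd (O : Set M) : Prop where
  add : ∀ P ∈ O, ∀ Q ∈ O, P + Q ∈ O
  tri : ∀ P, P = 0 ∨ P ∈ O ∨ -P ∈ O
  zero : (0 : M) ∉ O
  sh : ∀ t, ∀ P ∈ O, sh t P ∈ O

def low : Set M := {P | ∃ k, 0 < P k ∧ ∀ j < k, P j = 0}
def high : Set M := {P | ∃ k, 0 < P k ∧ ∀ j, k < j → P j = 0}
def step (r : ℝ) (O : Set M) : Set M := {P | 0 < val r P ∨ ∃ Q ∈ O, P = mulL r Q}

lemma ord_low : IsOrd low where
  add := by
    rintro P ⟨k, h1, h2⟩ Q ⟨l, h3, h4⟩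
    refine ⟨min k l, ?_, fun j hj => ?_⟩
    · rcases lt_trichotomy k l with h | rfl | h
      · simp [min_eq_left h.le, h4 k h, h1]
      · simp; linarith
      · simp [min_eq_right h.le, h2 l h, h3]
    · simp [h2 j (by omega), h4 j (by omega)]
  tri P := by
    by_cases h0 : P = 0
    · exact Or.inl h0
    have hne : P.support.Nonempty := Finsupp.support_nonempty_iff.2 h0
    have h1 := Finsupp.mem_support_iff.1 (P.support.min'_mem hne)
    have h2 : ∀ j < P.support.min' hne, P j = 0 := fun j hj => by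
      by_contra h3
      have := P.support.min'_le _ (Finsupp.mem_support_iff.2 h3)
      omega
    rcases lt_or_gt_of_ne h1 with h | h
    · exact Or.inr (Or.inr ⟨_, by simpa using h, fun j hj => by simp [h2 j hj]⟩)
    · exact Or.inr (Or.inl ⟨_, h, h2⟩)
  zero := by rintro ⟨k, h, -⟩; simp at h
  sh := by
    rintro t P ⟨k, h1, h2⟩
    exact ⟨k + t, by simpa [sh_apply] using h1, fun j hj => by rw [sh_apply, h2 _ (by omega)]⟩

lemma ord_high : IsOrd high where
  add := by
    rintro P ⟨k, h1, h2⟩ Q ⟨l, h3, h4⟩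
    refine ⟨max k l, ?_, fun j hj => ?_⟩
    · rcases lt_trichotomy k l with h | rfl | h
      · simp [max_eq_right h.le, h2 l h, h3]
      · simp; linarith
      · simp [max_eq_left h.le, h4 k h, h1]
    · simp [h2 j (by omega), h4 j (by omega)]
  tri P := by
    by_cases h0 : P = 0
    · exact Or.inl h0
    have hne : P.support.Nonempty := Finsupp.support_nonempty_iff.2 h0
    have h1 := Finsupp.mem_support_iff.1 (P.support.max'_mem hne)
    have h2 : ∀ j, P.support.max' hne < j → P j = 0 := fun j hj => by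
      by_contra h3
      have := P.support.le_max' _ (Finsupp.mem_support_iff.2 h3)
      omega
    rcases lt_or_gt_of_ne h1 with h | h
    · exact Or.inr (Or.inr ⟨_, by simpa using h, fun j hj => by simp [h2 j hj]⟩)
    · exact Or.inr (Or.inl ⟨_, h, h2⟩)
  zero := by rintro ⟨k, h, -⟩; simp at h
  sh := by
    rintro t P ⟨k, h1, h2⟩
    exact ⟨k + t, by simpa [sh_apply] using h1, fun j hj => by rw [sh_apply, h2 _ (by omega)]⟩

lemma ord_neg {O : Set M} (h : IsOrd O) : IsOrd {P | -P ∈ O} where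
  add P hP Q hQ := by
    change -(P + Q) ∈ O
    rw [neg_add]; exact h.add _ hP _ hQ
  tri P := by
    rcases h.tri P with h1 | h1 | h1
    · exact Or.inl h1
    · exact Or.inr (Or.inr (by simpa using h1))
    · exact Or.inr (Or.inl h1)
  zero := by simpa using h.zero
  sh t P hP := by
    change -sh t P ∈ O
    rw [← map_neg]; exact h.sh t _ hP

lemma ord_step {r : ℝ} (hr : 0 < r) {O : Set M} (h : IsOrd O) : IsOrd (step r O) where
  add := by
    rintro P (hP | ⟨A, hA, rfl⟩) Q (hQ | ⟨B, hB, rfl⟩)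
    · left; rw [map_add]; linarith
    · left; rw [map_add, val_mulL hr]; linarith
    · left; rw [map_add, val_mulL hr]; linarith
    · right; exact ⟨A + B, h.add _ hA _ hB, by rw [map_add]⟩
  tri P := by
    rcases lt_trichotomy (val r P) 0 with h1 | h1 | h1
    · exact Or.inr (Or.inr (Or.inl (by rw [map_neg]; linarith)))
    · obtain ⟨d, hd⟩ := exWin P
      obtain ⟨Q, -, rfl⟩ := divL hr hd h1
      rcases h.tri Q with h2 | h2 | h2
      · left; rw [h2, map_zero]
      · exact Or.inr (Or.inl (Or.inr ⟨Q, h2, rfl⟩))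
      · exact Or.inr (Or.inr (Or.inr ⟨-Q, h2, by rw [map_neg]⟩))
    · exact Or.inr (Or.inl (Or.inl h1))
  zero := by
    rintro (h1 | ⟨Q, hQ, e⟩)
    · simp at h1
    · exact h.zero (mulL_inj r Q e.symm ▸ hQ)
  sh := by
    rintro t P (h1 | ⟨Q, hQ, rfl⟩)
    · left; rw [val_sh hr]; positivity
    · right
      refine ⟨sh t Q, h.sh t Q hQ, ?_⟩
      ext k
      simp only [sh_apply, mulL_apply]
      congr 2; ring

inductive Spec : Set M → Prop
  | low : Spec low
  | high : Spec high
  | neg {O : Set M} : Spec O → Spec {P | -P ∈ O}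
  | step {r : ℝ} {O : Set M} : 0 < r → Spec O → Spec (step r O)

lemma Spec.ord {O : Set M} (h : Spec O) : IsOrd O := by
  induction h with
  | low => exact ord_low
  | high => exact ord_high
  | neg _ ih => exact ord_neg ih
  | step hr _ ih => exact ord_step hr ih

lemma IsOrd.asymm {O : Set M} (h : IsOrd O) {P : M} (h1 : P ∈ O) : -P ∉ O := fun h2 =>
  h.zero (by simpa using h.add _ h1 _ h2)

end Pool.Agent.H.MP_96de0f_al
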