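import Pool.Agent.H.MP_96de0f_al.A

set_option autoImplicit false

namespace Pool.Agent.H.MP_96de0f_al

open Filter Topology

def Near (r η : ℝ) (w : ℤ → ℝ) : Prop := ∀ m, 0 < w m ∧ |w (m + 1) - r * w m| ≤ η * w m

lemma Near.mono {r η η' : ℝ} {w : ℤ → ℝ} (h : Near r η w) (hη : η ≤ η') : Near r η' w :=
  fun m => ⟨(h m).1, (h m).2.trans (mul_le_mul_of_nonneg_right hη (h m).1.le)⟩

lemma near_pow {r : ℝ} (hr : 0 < r) (k : ℕ) : ∀ ε > 0, ∃ η > 0, ∀ w, Near r η w → ∀ m,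
    |w (m + k) - r ^ k * w m| ≤ ε * w m := by
  induction k with
  | zero => intro ε hε; exact ⟨1, one_pos, fun w hw m => by simpa using (mul_pos hε (hw m).1).le⟩
  | succ k ih =>
    intro ε hε
    obtain ⟨η, hη, h⟩ := ih (ε / (2 * r)) (by positivity)
    refine ⟨min η (ε / (2 * (r ^ k + ε / (2 * r)))), by positivity, fun w hw m => ?_⟩
    have h1 := h w (hw.mono (min_le_left _ _)) m
    have h2 := ((hw.mono (min_le_right _ _)) (m + k)).2
    have h3 : w (m + k) ≤ (r ^ k + ε / (2 * r)) * w m := by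
      have := (abs_le.1 h1).2; linarith
    have h4 : ε / (2 * (r ^ k + ε / (2 * r))) * w (m + k) ≤ ε / 2 * w m := by
      calc _ ≤ ε / (2 * (r ^ k + ε / (2 * r))) * ((r ^ k + ε / (2 * r)) * w m) :=
            mul_le_mul_of_nonneg_left h3 (by positivity)
        _ = _ := by field_simp
    have h5 : |r * (w (m + k) - r ^ k * w m)| ≤ ε / 2 * w m := by
      rw [abs_mul, abs_of_pos hr]
      calc _ ≤ r * (ε / (2 * r) * w m) := mul_le_mul_of_nonneg_left h1 hr.le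
        _ = _ := by field_simp
    have e : w (m + (k + 1 : ℕ)) - r ^ (k + 1) * w m =
        (w (m + k + 1) - r * w (m + k)) + r * (w (m + k) - r ^ k * w m) := by
      push_cast; rw [← add_assoc]; ring
    rw [e]
    exact (abs_add_le _ _).trans (by linarith)

lemma ex_unif {ι : Type} {s : Set ι} (hs : s.Finite) (p : ι → ℝ → Prop)
    (hm : ∀ i η η', 0 < η' → η' ≤ η → p i η → p i η') (h : ∀ i ∈ s, ∃ η > 0, p i η) :
    ∃ η > 0, ∀ i ∈ s, p i η := by
  induction s, hs using Set.Finite.induction_on with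
  | empty => exact ⟨1, one_pos, by simp⟩
  | insert _ _ ih =>
    obtain ⟨η, h1, h2⟩ := ih fun i hi => h i (Set.mem_insert_of_mem _ hi)
    obtain ⟨η', h3, h4⟩ := h _ (Set.mem_insert _ _)
    refine ⟨min η η', lt_min h1 h3, ?_⟩
    rintro i (rfl | hi)
    · exact hm _ _ _ (lt_min h1 h3) (min_le_right _ _) h4
    · exact hm _ _ _ (lt_min h1 h3) (min_le_left _ _) (h2 i hi)

lemma near_val {r : ℝ} (hr : 0 < r) (P : M) (hP : 0 < val r P) :
    ∃ η > 0, ∀ w, Near r η w → ∀ n, 0 < ev w n P := by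
  obtain ⟨d, hd⟩ := exWin P
  set A := ∑ k ∈ P.support, |P k|
  have hA : 0 ≤ A := Finset.sum_nonneg fun _ _ => abs_nonneg _
  set v := r ^ (d : ℤ) * val r P with hv
  have hv0 : 0 < v := by positivity
  obtain ⟨η, hη, h⟩ := ex_unif P.support.finite_toSet
    (fun k η => ∀ w, Near r η w → ∀ m, |w (m + ((k + d).toNat : ℕ)) - r ^ (k + d).toNat * w m| ≤
      v / (A + 1) * w m) (fun i η η' _ h1 h2 w hw => h2 w (hw.mono h1))
    (fun k _ => near_pow hr _ _ (by positivity))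
  refine ⟨η, hη, fun w hw n => ?_⟩
  have hw0 := (hw (n - d)).1
  have e : v * w (n - d) = ∑ k ∈ P.support, P k * (r ^ (k + d).toNat * w (n - d)) := by
    rw [hv, val, ev_apply, Finset.mul_sum, Finset.sum_mul]
    refine Finset.sum_congr rfl fun k hk => ?_
    have := (hd k (Finsupp.mem_support_iff.1 hk)).1
    rw [← zpow_natCast, Int.toNat_of_nonneg (by omega), zero_add, zpow_add₀ hr.ne']; ring
  have h2 : v * w (n - d) - ev w n P ≤ A * (v / (A + 1) * w (n - d)) := by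
    rw [e, ev_apply, ← Finset.sum_sub_distrib, Finset.sum_mul]
    refine Finset.sum_le_sum fun k hk => ?_
    have h3 := h k hk w hw (n - d)
    have := (hd k (Finsupp.mem_support_iff.1 hk)).1
    rw [Int.toNat_of_nonneg (by omega), show n - d + (k + d) = n + k by ring, abs_sub_comm] at h3
    rw [← mul_sub]
    exact (le_abs_self _).trans (by rw [abs_mul]; exact mul_le_mul_of_nonneg_left h3 (abs_nonneg _))
  have h4 : A * (v / (A + 1) * w (n - d)) < v * w (n - d) := by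
    rw [← mul_assoc]
    refine mul_lt_mul_of_pos_right ?_ hw0
    rw [← mul_div_assoc, div_lt_iff₀ (by positivity)]
    nlinarith
  linarith

lemma ev_lead (P : M) (k0 : ℤ) (h0 : 0 < P k0) : ∃ δ > 0, ∀ (w : ℤ → ℝ) (n : ℤ), (∀ m, 0 ≤ w m) →
    (∀ k, P k ≠ 0 → k ≠ k0 → w (n + k) ≤ δ * w (n + k0)) → P k0 / 2 * w (n + k0) ≤ ev w n P := by
  classical
  set A := ∑ k ∈ P.support, |P k|
  have hA : 0 ≤ A := Finset.sum_nonneg fun _ _ => abs_nonneg _
  refine ⟨P k0 / 2 / (A + 1), by positivity, fun w n hw h => ?_⟩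
  have hk0 : k0 ∈ P.support := Finsupp.mem_support_iff.2 h0.ne'
  rw [ev_apply, ← Finset.add_sum_erase _ _ hk0]
  have h1 : -(A * (P k0 / 2 / (A + 1) * w (n + k0))) ≤
      ∑ k ∈ P.support.erase k0, P k * w (n + k) := by
    calc _ ≤ -((∑ k ∈ P.support.erase k0, |P k|) * (P k0 / 2 / (A + 1) * w (n + k0))) := by
          have := hw (n + k0)
          have : ∑ k ∈ P.support.erase k0, |P k| ≤ A :=
            Finset.sum_le_sum_of_subset_of_nonneg (Finset.erase_subset _ _) fun _ _ _ => abs_nonneg _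
          gcongr
      _ ≤ _ := by
          rw [Finset.sum_mul, ← Finset.sum_neg_distrib]
          refine Finset.sum_le_sum fun k hk => ?_
          rw [Finset.mem_erase, Finsupp.mem_support_iff] at hk
          have h2 := mul_le_mul_of_nonneg_left (h k hk.2 hk.1) (abs_nonneg (P k))
          have h3 := mul_le_mul_of_nonneg_right (neg_abs_le (P k)) (hw (n + k))
          linarith
  have h4 : A * (P k0 / 2 / (A + 1) * w (n + k0)) ≤ P k0 / 2 * w (n + k0) := by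
    rw [← mul_assoc]
    refine mul_le_mul_of_nonneg_right ?_ (hw _)
    rw [← mul_div_assoc, div_le_iff₀ (by positivity)]
    nlinarith
  linarith

lemma lowL (P : M) (hP : P ∈ low) : ∃ δ > 0, ∀ w : ℤ → ℝ, (∀ m, 0 ≤ w m) →
    (∀ m, w (m + 1) ≤ δ * w m) → ∀ n, 0 ≤ ev w n P ∧ ((∀ m, 0 < w m) → 0 < ev w n P) := by
  obtain ⟨k0, h0, h1⟩ := hP
  obtain ⟨δ, hδ, h⟩ := ev_lead P k0 h0
  refine ⟨min δ 1, by positivity, fun w hw hs n => ?_⟩
  have h2 : ∀ j, n + k0 + 1 ≤ j → w j ≤ δ * w (n + k0) := by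
    intro j hj
    induction j, hj using Int.le_induction with
    | base => exact (hs _).trans (mul_le_mul_of_nonneg_right (min_le_left _ _) (hw _))
    | succ j _ ih =>
      exact ((hs _).trans (mul_le_of_le_one_left (hw _) (min_le_right _ _))).trans ih
  have := h w n hw fun k hk hk' => h2 _ (by
    by_contra h3
    exact hk (h1 k (by omega)))
  have h5 := hw (n + k0)
  exact ⟨le_trans (by positivity) this, fun h4 => lt_of_lt_of_le (by have := h4 (n + k0); positivity) this⟩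

lemma highL (P : M) (hP : P ∈ high) : ∃ δ > 0, ∀ w : ℤ → ℝ, (∀ m, 0 ≤ w m) →
    (∀ m, w m ≤ δ * w (m + 1)) → ∀ n, 0 ≤ ev w n P ∧ ((∀ m, 0 < w m) → 0 < ev w n P) := by
  obtain ⟨k0, h0, h1⟩ := hP
  obtain ⟨δ, hδ, h⟩ := ev_lead P k0 h0
  refine ⟨min δ 1, by positivity, fun w hw hs n => ?_⟩
  have h2 : ∀ j, j ≤ n + k0 - 1 → w j ≤ δ * w (n + k0) := by
    intro j hj
    induction j, hj using Int.le_induction_down with
    | base =>
      have := hs (n + k0 - 1)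
      rw [sub_add_cancel] at this
      exact this.trans (mul_le_mul_of_nonneg_right (min_le_left _ _) (hw _))
    | pred j _ ih =>
      have := hs (j - 1)
      rw [sub_add_cancel] at this
      exact (this.trans (mul_le_of_le_one_left (hw _) (min_le_right _ _))).trans ih
  have := h w n hw fun k hk hk' => h2 _ (by
    by_contra h3
    exact hk (h1 k (by omega)))
  have h5 := hw (n + k0)
  exact ⟨le_trans (by positivity) this, fun h4 => lt_of_lt_of_le (by have := h4 (n + k0); positivity) this⟩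

def Cmp (F : Set M) (w : ℤ → ℝ) (n : ℤ) : Prop := ∃ O, Spec O ∧ ∀ P ∈ F, 0 < ev w n P → P ∈ O

lemma cmp_of {F : Set M} {w : ℤ → ℝ} {n : ℤ} {O : Set M} (hO : Spec O)
    (h : ∀ P ∈ F, -P ∈ O → 0 ≤ ev w n (-P)) : Cmp F w n := by
  refine ⟨O, hO, fun P hP h1 => ?_⟩
  rcases hO.ord.tri P with rfl | h2 | h2
  · simp at h1
  · exact h2
  · have := h P hP h2
    rw [map_neg] at this; linarith

lemma lowF {F : Set M} (hF : F.Finite) : ∃ δ > 0, ∀ w : ℤ → ℝ, (∀ m, 0 ≤ w m) →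
    (∀ m, w (m + 1) ≤ δ * w m) → ∀ n, Cmp F w n ∧
      ((∀ m, 0 < w m) → ∀ P ∈ F, P ∈ low → 0 < ev w n P) := by
  obtain ⟨δ, hδ, h⟩ := ex_unif (hF.union hF.neg) (fun P δ => P ∈ low → ∀ w : ℤ → ℝ, (∀ m, 0 ≤ w m) →
    (∀ m, w (m + 1) ≤ δ * w m) → ∀ n, 0 ≤ ev w n P ∧ ((∀ m, 0 < w m) → 0 < ev w n P))
    (fun P η η' _ h1 h2 hP w hw hs => h2 hP w hw fun m =>
      (hs m).trans (mul_le_mul_of_nonneg_right h1 (hw m))) (fun P _ => by
        by_cases hP : P ∈ low
        · obtain ⟨δ, h1, h2⟩ := lowL P hP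
          exact ⟨δ, h1, fun _ => h2⟩
        · exact ⟨1, one_pos, fun h => absurd h hP⟩)
  exact ⟨δ, hδ, fun w hw hs n => ⟨cmp_of Spec.low fun P hP h1 =>
    (h _ (Or.inr (by simpa using hP)) h1 w hw hs n).1,
    fun h1 P hP h2 => (h _ (Or.inl hP) h2 w hw hs n).2 h1⟩⟩

lemma highF {F : Set M} (hF : F.Finite) : ∃ δ > 0, ∀ w : ℤ → ℝ, (∀ m, 0 ≤ w m) →
    (∀ m, w m ≤ δ * w (m + 1)) → ∀ n, Cmp F w n ∧
      ((∀ m, 0 < w m) → ∀ P ∈ F, P ∈ high → 0 < ev w n P) := by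
  obtain ⟨δ, hδ, h⟩ := ex_unif (hF.union hF.neg) (fun P δ => P ∈ high → ∀ w : ℤ → ℝ,
    (∀ m, 0 ≤ w m) →
    (∀ m, w m ≤ δ * w (m + 1)) → ∀ n, 0 ≤ ev w n P ∧ ((∀ m, 0 < w m) → 0 < ev w n P))
    (fun P η η' _ h1 h2 hP w hw hs => h2 hP w hw fun m =>
      (hs m).trans (mul_le_mul_of_nonneg_right h1 (hw _))) (fun P _ => by
        by_cases hP : P ∈ high
        · obtain ⟨δ, h1, h2⟩ := highL P hP
          exact ⟨δ, h1, fun _ => h2⟩
        · exact ⟨1, one_pos, fun h => absurd h hP⟩)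
  exact ⟨δ, hδ, fun w hw hs n => ⟨cmp_of Spec.high fun P hP h1 =>
    (h _ (Or.inr (by simpa using hP)) h1 w hw hs n).1,
    fun h1 P hP h2 => (h _ (Or.inl hP) h2 w hw hs n).2 h1⟩⟩

lemma Cmp.neg {F : Set M} {w : ℤ → ℝ} {n : ℤ} (h : Cmp (-F) w n) : Cmp F (fun m => -w m) n := by
  obtain ⟨O, hO, h⟩ := h
  refine ⟨_, hO.neg, fun P hP h1 => h _ (by simpa using hP) ?_⟩
  have : ev (fun m => -w m) n P = (-1) * ev w n P := ev_congr fun k _ => by ring
  rw [map_neg]; linarith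

lemma Cmp.congr {F : Set M} {w w' : ℤ → ℝ} {n n' : ℤ} {c : ℝ} (hc : 0 < c) (h : Cmp F w' n')
    (e : ∀ P ∈ F, ∀ k, P k ≠ 0 → w (n + k) = c * w' (n' + k)) : Cmp F w n := by
  obtain ⟨O, hO, h⟩ := h
  refine ⟨O, hO, fun P hP h1 => h P hP ?_⟩
  rw [ev_congr (e P hP)] at h1
  exact pos_of_mul_pos_left (by linarith) hc.le

/-- the quotients by `X - r` -/
def quo (r : ℝ) (F : Set M) : Set M := {Q | mulL r Q ∈ F}

lemma quo_fin (r : ℝ) {F : Set M} (hF : F.Finite) : (quo r F).Finite :=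
  hF.preimage (Function.Injective.injOn ((injective_iff_map_eq_zero _).2 (mulL_inj r)))

lemma quo_win {r : ℝ} (hr : 0 < r) {F : Set M} {a b : ℤ} (h : ∀ P ∈ F, Win a b P) :
    ∀ Q ∈ quo r F, Win a (b - 1) Q := by
  intro Q hQ
  obtain ⟨Q', h1, h2⟩ := divL hr (h _ hQ) (val_mulL hr Q)
  rwa [(injective_iff_map_eq_zero _).2 (mulL_inj r) h2]

lemma liftL {r : ℝ} (hr : 0 < r) {F : Set M} (hF : F.Finite) : ∃ η > 0, ∀ w, Near r η w → ∀ n,
    (∀ P ∈ F, 0 < val r P → 0 < ev w n P) ∧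
    (Cmp (quo r F) (fun m => w (m + 1) - r * w m) n → Cmp F w n) := by
  obtain ⟨η, hη, h⟩ := ex_unif (hF.union hF.neg)
    (fun P η => 0 < val r P → ∀ w, Near r η w → ∀ n, 0 < ev w n P)
    (fun P η η' _ h1 h2 hP w hw => h2 hP w (hw.mono h1)) (fun P _ => by
        by_cases hP : 0 < val r P
        · obtain ⟨δ, h1, h2⟩ := near_val hr P hP
          exact ⟨δ, h1, fun _ => h2⟩
        · exact ⟨1, one_pos, fun h => absurd h hP⟩)
  refine ⟨η, hη, fun w hw n => ⟨fun P hP h1 => h P (Or.inl hP) h1 w hw n, ?_⟩⟩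
  rintro ⟨O, hO, h1⟩
  refine ⟨_, hO.step hr, fun P hP h2 => ?_⟩
  rcases lt_trichotomy (val r P) 0 with h3 | h3 | h3
  · have := h (-P) (Or.inr (by simpa using hP)) (by rw [map_neg]; linarith) w hw n
    rw [map_neg] at this; linarith
  · obtain ⟨d, hd⟩ := exWin P
    obtain ⟨Q, -, rfl⟩ := divL hr hd h3
    exact Or.inr ⟨Q, h1 Q hP (by rwa [ev_mulL] at h2), rfl⟩
  · exact Or.inl h3

end Pool.Agent.H.MP_96de0f_al
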