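import Pool.Agent.H.MP_96de0f_al.B

set_option autoImplicit false

namespace Pool.Agent.H.MP_96de0f_al

open Filter Topology

structure Path (F : Set M) (a b l h : ℝ) (w : ℤ → ℝ) : Prop where
  nn : ∀ n, 0 ≤ w n
  left : ∃ N, ∀ n ≤ N, w n = a * w (n + 1) ∧ (0 < a → 0 < w n)
  right : ∃ N, ∀ n, N ≤ n → w (n + 1) = b * w n ∧ (0 < b → 0 < w n)
  lo : ∀ n, l * w n ≤ w (n + 1)
  hi : ∀ n, h * w (n + 1) ≤ w n
  cmp : ∀ n, Cmp F w n

lemma Path.mono {F : Set M} {a b l h l' h' : ℝ} {w : ℤ → ℝ} (p : Path F a b l h w) (hl : l' ≤ l)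
    (hh : h' ≤ h) : Path F a b l' h' w :=
  ⟨p.nn, p.left, p.right, fun n => (mul_le_mul_of_nonneg_right hl (p.nn _)).trans (p.lo n),
    fun n => (mul_le_mul_of_nonneg_right hh (p.nn _)).trans (p.hi n), p.cmp⟩

lemma glue {F : Set M} (hF : F.Finite) {a b c l h : ℝ} (hb : 0 < b) {w1 w2 : ℤ → ℝ}
    (p1 : Path F a b l h w1) (p2 : Path F b⁻¹ c l h w2) (n1 n2 : ℤ) :
    ∃ w, Path F a c l h w ∧ (∀ P ∈ F, 0 < ev w1 n1 P → 0 < ev w n1 P) ∧
      ∃ n, ∀ P ∈ F, 0 < ev w2 n2 P → 0 < ev w n P := by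
  obtain ⟨d, hd⟩ := exWinF hF
  obtain ⟨N1, h1⟩ := p1.right
  obtain ⟨N2, h2⟩ := p2.left
  obtain ⟨A, hA1, hA2⟩ : ∃ A : ℤ, N1 + 2 * d + 1 ≤ A ∧ n1 + d ≤ A :=
    ⟨max (N1 + 2 * d + 1) (n1 + d), le_max_left _ _, le_max_right _ _⟩
  obtain ⟨B, hB1, hB2⟩ : ∃ B : ℤ, B ≤ N2 ∧ B ≤ n2 := ⟨min N2 n2, min_le_left _ _, min_le_right _ _⟩
  have hp2 := (h2 B hB1).2 (inv_pos.2 hb)
  have hp1 := (h1 A (by omega)).2 hb
  set c0 := w1 A / w2 B with hc0
  have hc : 0 < c0 := div_pos hp1 hp2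
  let w : ℤ → ℝ := fun n => if n ≤ A then w1 n else c0 * w2 (n - (A - B))
  have e1 : ∀ n ≤ A, w n = w1 n := fun n hn => if_pos hn
  have e3 : ∀ n ≤ A, N1 ≤ n → w1 n = c0 * w2 (n - (A - B)) := by
    intro n hn
    induction n, hn using Int.le_induction_down with
    | base => intro _; rw [sub_sub_cancel, hc0]; field_simp
    | pred n hn ih =>
      intro hN
      have i1 := ih (by omega)
      have i2 := (h1 (n - 1) hN).1
      have i3 := (h2 (n - 1 - (A - B)) (by omega)).1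
      rw [sub_add_cancel] at i2
      rw [show n - 1 - (A - B) + 1 = n - (A - B) by ring] at i3
      rw [i3]
      apply mul_left_cancel₀ hb.ne'
      rw [← i2, i1]; field_simp
  have e2 : ∀ n, N1 ≤ n → w n = c0 * w2 (n - (A - B)) := by
    intro n hn
    by_cases h : n ≤ A
    · rw [e1 n h, e3 n h hn]
    · exact if_neg h
  refine ⟨w, ⟨fun n => ?_, ?_, ?_, fun n => ?_, fun n => ?_, fun n => ?_⟩, ?_, n2 + (A - B), ?_⟩
  · by_cases h : n ≤ A
    · rw [e1 n h]; exact p1.nn n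
    · rw [e2 n (by omega)]; exact mul_nonneg hc.le (p2.nn _)
  · obtain ⟨N, hN⟩ := p1.left
    refine ⟨min N (A - 1), fun n hn => ?_⟩
    rw [e1 n (by omega), e1 (n + 1) (by omega)]
    exact hN n (by omega)
  · obtain ⟨N, hN⟩ := p2.right
    refine ⟨max N1 (N + (A - B)), fun n hn => ?_⟩
    rw [e2 n (by omega), e2 (n + 1) (by omega), show n + 1 - (A - B) = n - (A - B) + 1 by ring,
      (hN _ (by omega)).1]
    exact ⟨by ring, fun h => mul_pos hc ((hN _ (by omega)).2 h)⟩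
  · by_cases h : n + 1 ≤ A
    · rw [e1 n (by omega), e1 _ h]; exact p1.lo n
    · rw [e2 n (by omega), e2 (n + 1) (by omega), show n + 1 - (A - B) = n - (A - B) + 1 by ring]
      nlinarith [p2.lo (n - (A - B))]
  · by_cases h : n + 1 ≤ A
    · rw [e1 n (by omega), e1 _ h]; exact p1.hi n
    · rw [e2 n (by omega), e2 (n + 1) (by omega), show n + 1 - (A - B) = n - (A - B) + 1 by ring]
      nlinarith [p2.hi (n - (A - B))]
  · by_cases h : n + d ≤ A
    · exact (p1.cmp n).congr one_pos fun P hP k hk => by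
        have := hd P hP k hk
        rw [e1 _ (by omega), one_mul]
    · exact (p2.cmp (n - (A - B))).congr hc fun P hP k hk => by
        have := hd P hP k hk
        rw [e2 _ (by omega)]; congr 2; ring
  · intro P hP h
    rwa [ev_congr (w' := w1) (n' := n1) (c := 1) (fun k hk => by
      have := hd P hP k hk
      rw [e1 _ (by omega), one_mul]), one_mul]
  · intro P hP h
    rw [ev_congr (w' := w2) (n' := n2) (c := c0) (fun k hk => by
      have := hd P hP k hk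
      rw [e2 _ (by omega)]; congr 2; ring)]
    positivity

def Mv (F : Set M) (a b : ℝ) : Prop := ∃ w, Path F a⁻¹ b b a⁻¹ w

lemma Mv.trans {F : Set M} (hF : F.Finite) {a b c : ℝ} (hb : 0 < b) (h1 : b ≤ a) (h2 : c ≤ b)
    (m1 : Mv F a b) (m2 : Mv F b c) : Mv F a c := by
  obtain ⟨w1, p1⟩ := m1
  obtain ⟨w2, p2⟩ := m2
  obtain ⟨w, p, -⟩ := glue hF hb (p1.mono h2 le_rfl) (p2.mono le_rfl (inv_anti₀ hb h1)) 0 0
  exact ⟨w, p⟩

lemma two (F : Set M) {a b : ℝ} (ha : 0 < a) (hb : 0 ≤ b) (hba : b ≤ a)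
    (h : ∀ w : ℤ → ℝ, (∀ m, 0 ≤ w m) → (∀ m, w (m + 1) ≤ a * w m) → ∀ n, Cmp F w n) :
    Mv F a b := by
  let w : ℤ → ℝ := fun n => if n ≤ 0 then a ^ n else b ^ n
  have h0 : ∀ n, 0 ≤ w n := fun n => by simp only [w]; split_ifs <;> positivity
  have h1 : ∀ n < 0, w (n + 1) = a * w n := fun n hn => by
    simp only [w]; rw [if_pos (by omega), if_pos hn.le, zpow_add_one₀ ha.ne']; ring
  have h2 : ∀ n, 0 ≤ n → w (n + 1) = b * w n := fun n hn => by
    simp only [w]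
    rw [if_neg (by omega)]
    lift n to ℕ using hn
    have : (if (n : ℤ) ≤ 0 then a ^ (n : ℤ) else b ^ (n : ℤ)) = b ^ (n : ℤ) := by
      split_ifs with h
      · have : n = 0 := by omega
        subst this; simp
      · rfl
    rw [this, zpow_natCast, ← Nat.cast_succ, zpow_natCast, pow_succ]; ring
  have h3 : ∀ m, w (m + 1) ≤ a * w m := fun m => by
    rcases lt_or_ge m 0 with hm | hm
    · exact (h1 m hm).le
    · rw [h2 m hm]; exact mul_le_mul_of_nonneg_right hba (h0 m)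
  refine ⟨w, h0, ⟨-1, fun n hn => ⟨?_, fun _ => ?_⟩⟩, ⟨1, fun n hn => ⟨h2 n (by omega), fun h => ?_⟩⟩,
    fun n => ?_, fun n => ?_, h w h0 h3⟩
  · rw [h1 n (by omega)]; field_simp
  · simp only [w]; rw [if_pos (by omega)]; positivity
  · simp only [w]; rw [if_neg (by omega)]; positivity
  · rcases lt_or_ge n 0 with hm | hm
    · rw [h1 n hm]; exact mul_le_mul_of_nonneg_right hba (h0 n)
    · exact (h2 n hm).ge
  · rw [inv_mul_le_iff₀ ha]; exact h3 n

lemma dn {F : Set M} (hF : F.Finite) (h : ∀ a b, 0 < b → b ≤ a → Mv F a b) {a : ℝ} (ha : 0 < a) :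
    Mv F a 0 := by
  obtain ⟨δ, hδ, h1⟩ := lowF hF
  have h2 : 0 < min δ a := lt_min hδ ha
  refine Mv.trans hF h2 (min_le_right _ _) h2.le (h _ _ h2 (min_le_right _ _))
    (two F h2 le_rfl h2.le fun w hw hs n => (h1 w hw (fun m => (hs m).trans ?_) n).1)
  exact mul_le_mul_of_nonneg_right (min_le_left _ _) (hw m)

lemma up {F : Set M} (hF : F.Finite) (h : ∀ a b, 0 < b → b ≤ a → Mv F a b) {b : ℝ} (hb : 0 < b) :
    ∃ w, Path F 0 b b 0 w := by
  obtain ⟨δ, hδ, h1⟩ := highF hF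
  obtain ⟨R, hR1, hR2⟩ : ∃ R, δ⁻¹ ≤ R ∧ b ≤ R := ⟨max δ⁻¹ b, le_max_left _ _, le_max_right _ _⟩
  have hR : 0 < R := hb.trans_le hR2
  let w : ℤ → ℝ := fun n => if n < 0 then 0 else R ^ n
  have h0 : ∀ n, 0 ≤ w n := fun n => by simp only [w]; split_ifs <;> positivity
  have h2 : ∀ n, 0 ≤ n → w (n + 1) = R * w n := fun n hn => by
    simp only [w]; rw [if_neg (by omega), if_neg (by omega), zpow_add_one₀ hR.ne']; ring
  have h3 : ∀ n, R * w n ≤ w (n + 1) := fun n => by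
    rcases lt_or_ge n 0 with hm | hm
    · have : w n = 0 := if_pos hm
      rw [this, mul_zero]; exact h0 _
    · exact (h2 n hm).ge
  have p1 : Path F 0 R b 0 w := ⟨h0, ⟨-1, fun n hn => ⟨by
      rw [zero_mul]; exact if_pos (by omega), fun h => absurd h (lt_irrefl _)⟩⟩,
    ⟨0, fun n hn => ⟨h2 n hn, fun _ => by simp only [w]; rw [if_neg (by omega)]; positivity⟩⟩,
    fun n => (mul_le_mul_of_nonneg_right hR2 (h0 n)).trans (h3 n), fun n => by simp [h0],
    fun n => (h1 w h0 (fun m => by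
      rw [← inv_mul_le_iff₀ hδ]
      exact (mul_le_mul_of_nonneg_right hR1 (h0 m)).trans (h3 m)) n).1⟩
  obtain ⟨w2, p2⟩ := h R b hb hR2
  obtain ⟨w, p, -⟩ := glue hF hR p1 (p2.mono le_rfl (inv_pos.2 hR).le) 0 0
  exact ⟨w, p⟩

lemma fwd (N : ℤ) (u : ℤ → ℝ) (f : ℤ → ℝ → ℝ) :
    ∃ w : ℤ → ℝ, (∀ n ≤ N, w n = u n) ∧ ∀ n, N ≤ n → w (n + 1) = f n (w n) := by
  let g : ℕ → ℝ := fun k => Nat.rec (u N) (fun k x => f (N + k) x) k
  refine ⟨fun n => if n ≤ N then u n else g (n - N).toNat, fun n hn => if_pos hn, fun n hn => ?_⟩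
  obtain ⟨k, rfl⟩ := Int.le.dest hn
  have e : (if N + (k : ℤ) ≤ N then u (N + k) else g (N + k - N).toNat) = g k := by
    split_ifs with h
    · have : k = 0 := by omega
      subst this; simp [g]
    · congr 1; omega
  simp only [e]
  rw [if_neg (by omega), show (N + (k : ℤ) + 1 - N).toNat = k + 1 by omega]

lemma bwd (N : ℤ) (u : ℤ → ℝ) (f : ℤ → ℝ → ℝ) :
    ∃ w : ℤ → ℝ, (∀ n, N ≤ n → w n = u n) ∧ ∀ n < N, w n = f n (w (n + 1)) := by
  obtain ⟨w, h1, h2⟩ := fwd (-N) (fun n => u (-n)) (fun n x => f (-n - 1) x)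
  refine ⟨fun n => w (-n), fun n hn => by simpa using h1 (-n) (by omega), fun n hn => ?_⟩
  have := h2 (-(n + 1)) (by omega)
  simpa using this

lemma Cmp.scale {F : Set M} {w y : ℤ → ℝ} {n : ℤ} {c : ℝ} (hc : 0 ≤ c) (h : Cmp F y n)
    (e : ∀ m, w m = c * y m) : Cmp F w n := by
  rcases hc.eq_or_lt with rfl | hc
  · refine ⟨_, Spec.low, fun P _ h => ?_⟩
    rw [ev_congr (w' := y) (n' := n) (c := 0) fun k _ => e _] at h
    simp at h
  · exact h.congr hc fun _ _ _ _ => e _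

lemma enter {F : Set M} {r r1 : ℝ} (hr : 0 < r) (h1 : r ≤ r1) (hm : Mv (quo r F) r1 0)
    (hl : ∀ w, Near r (r1 - r) w → ∀ n,
      Cmp (quo r F) (fun m => w (m + 1) - r * w m) n → Cmp F w n) : Mv F r1 r := by
  obtain ⟨y, p⟩ := hm
  have hr1 : 0 < r1 := hr.trans_le h1
  obtain ⟨N, hN⟩ := p.left
  obtain ⟨w, e1, e2⟩ := fwd N y (fun n x => r * x + (r1 - r) * y n)
  have hy : ∀ n, y (n + 1) ≤ r1 * y n := fun n => (inv_mul_le_iff₀ hr1).1 (p.hi n)
  have e3 : ∀ n, w (n + 1) = r * w n + (r1 - r) * y n := by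
    intro n
    rcases lt_or_ge n N with h | h
    · rw [e1 _ (by omega), e1 _ h.le, (hN n h.le).1]; field_simp; ring
    · exact e2 n h
  have e4 : ∀ n, 0 < w n ∧ y n ≤ w n := by
    intro n
    rcases le_total n N with h | h
    · rw [e1 n h]; exact ⟨(hN n h).2 (inv_pos.2 hr1), le_rfl⟩
    · induction n, h using Int.le_induction with
      | base => rw [e1 N le_rfl]; exact ⟨(hN N le_rfl).2 (inv_pos.2 hr1), le_rfl⟩
      | succ n _ ih =>
        rw [e3]
        have := mul_nonneg (sub_nonneg.2 h1) (p.nn n)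
        constructor
        · have := mul_pos hr ih.1; linarith
        · nlinarith [hy n, mul_le_mul_of_nonneg_left ih.2 hr.le]
  have e5 : ∀ n, 0 ≤ (r1 - r) * y n ∧ (r1 - r) * y n ≤ (r1 - r) * w n := fun n =>
    ⟨mul_nonneg (sub_nonneg.2 h1) (p.nn n), mul_le_mul_of_nonneg_left (e4 n).2 (sub_nonneg.2 h1)⟩
  refine ⟨w, fun n => (e4 n).1.le, ⟨N - 1, fun n hn => ⟨?_, fun _ => (e4 n).1⟩⟩, ?_, fun n => ?_,
    fun n => ?_, fun n => hl w (fun m => ⟨(e4 m).1, ?_⟩) n ?_⟩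
  · rw [e1 _ (by omega), e1 _ (by omega)]; exact (hN n (by omega)).1
  · obtain ⟨N', hN'⟩ := p.right
    refine ⟨N' + 1, fun n hn => ⟨?_, fun _ => (e4 n).1⟩⟩
    have := (hN' (n - 1) (by omega)).1
    rw [sub_add_cancel, zero_mul] at this
    rw [e3, this]; ring
  · rw [e3]; linarith [e5 n]
  · rw [inv_mul_le_iff₀ hr1, e3]; linarith [e5 n]
  · rw [e3, abs_le]; constructor <;> linarith [e5 m]
  · exact (p.cmp n).scale (sub_nonneg.2 h1) fun m => by rw [e3]; ring

lemma leave {F : Set M} {r r2 : ℝ} (hr2 : 0 < r2) (h1 : r2 ≤ r)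
    (hm : ∃ y, Path (-quo r F) 0 r2 r2 0 y)
    (hl : ∀ w, Near r (r - r2) w → ∀ n,
      Cmp (quo r F) (fun m => w (m + 1) - r * w m) n → Cmp F w n) : Mv F r r2 := by
  obtain ⟨y, p⟩ := hm
  have hr : 0 < r := hr2.trans_le h1
  obtain ⟨N, hN⟩ := p.right
  obtain ⟨w, e1, e2⟩ := bwd N y (fun n x => r⁻¹ * (x + (r - r2) * y n))
  have e3 : ∀ n, w (n + 1) = r * w n - (r - r2) * y n := by
    intro n
    rcases lt_or_ge n N with h | h
    · rw [e2 n h]; field_simp; ring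
    · rw [e1 _ (by omega), e1 _ h, (hN n h).1]; ring
  have e4 : ∀ n, 0 < w n ∧ y n ≤ w n := by
    intro n
    rcases le_total N n with h | h
    · rw [e1 n h]; exact ⟨(hN n h).2 hr2, le_rfl⟩
    · induction n, h using Int.le_induction_down with
      | base => rw [e1 N le_rfl]; exact ⟨(hN N le_rfl).2 hr2, le_rfl⟩
      | pred n _ ih =>
        have i1 := e3 (n - 1)
        have i2 := p.lo (n - 1)
        rw [sub_add_cancel] at i1 i2
        have := mul_nonneg (sub_nonneg.2 h1) (p.nn (n - 1))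
        constructor
        · exact pos_of_mul_pos_left (b := r) (by linarith) hr.le
        · exact le_of_mul_le_mul_left (a := r) (by linarith) hr
  have e5 : ∀ n, 0 ≤ (r - r2) * y n ∧ (r - r2) * y n ≤ (r - r2) * w n := fun n =>
    ⟨mul_nonneg (sub_nonneg.2 h1) (p.nn n), mul_le_mul_of_nonneg_left (e4 n).2 (sub_nonneg.2 h1)⟩
  refine ⟨w, fun n => (e4 n).1.le, ?_, ⟨N, fun n hn => ⟨?_, fun _ => (e4 n).1⟩⟩, fun n => ?_,
    fun n => ?_, fun n => hl w (fun m => ⟨(e4 m).1, ?_⟩) n ?_⟩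
  · obtain ⟨N', hN'⟩ := p.left
    refine ⟨N', fun n hn => ⟨?_, fun _ => (e4 n).1⟩⟩
    have := (hN' n hn).1
    rw [zero_mul] at this
    rw [e3, this]; field_simp; ring
  · rw [e1 _ (by omega), e1 _ hn]; exact (hN n hn).1
  · rw [e3]; linarith [e5 n]
  · rw [inv_mul_le_iff₀ hr, e3]; linarith [e5 n]
  · rw [e3, abs_le]; constructor <;> linarith [e5 m]
  · exact (p.cmp n).neg.scale (sub_nonneg.2 h1) fun m => by rw [e3]; ring

theorem allMv (d : ℕ) (a0 : ℤ) : ∀ F : Set M, F.Finite → (∀ P ∈ F, Win a0 (a0 + d) P) →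
    ∀ a b, 0 < b → b ≤ a → Mv F a b := by
  induction d with
  | zero =>
    intro F _ hW a b hb hba
    refine two F (hb.trans_le hba) hb.le hba fun w _ _ n => ⟨_, Spec.low, fun P hP h => ?_⟩
    have : P = 0 := by
      ext k; by_contra h0
      have := hW P hP k h0
      omega
    simp [this] at h
  | succ d ih =>
    intro F hF hW a b hb hba
    have loc : ∀ r, 0 < r → ∃ η > 0, (∀ r1, r ≤ r1 → r1 - r ≤ η → Mv F r1 r) ∧
        ∀ r2, 0 < r2 → r2 ≤ r → r - r2 ≤ η → Mv F r r2 := by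
      intro r hr
      obtain ⟨η, hη, hl⟩ := liftL hr hF
      have hW' : ∀ Q ∈ quo r F, Win a0 (a0 + d) Q := by
        have := quo_win hr hW
        rwa [show a0 + ((d + 1 : ℕ) : ℤ) - 1 = a0 + d by push_cast; ring] at this
      refine ⟨η, hη, fun r1 h1 h2 => enter hr h1 (dn (quo_fin r hF) (ih _ (quo_fin r hF) hW')
        (hr.trans_le h1)) fun w hw n => (hl w (hw.mono h2) n).2, fun r2 h0 h1 h2 => leave h0 h1
          (up (quo_fin r hF).neg (ih _ (quo_fin r hF).neg fun Q hQ k hk => ?_) h0)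
            fun w hw n => (hl w (hw.mono h2) n).2⟩
      exact hW' _ hQ k (by simpa using hk)
    let T := {x | b ≤ x ∧ x ≤ a ∧ Mv F a x}
    have ha : 0 < a := hb.trans_le hba
    have hT : T.Nonempty := by
      obtain ⟨η, hη, h, -⟩ := loc a ha
      exact ⟨a, hba, le_rfl, h a le_rfl (by linarith)⟩
    have hbd : BddBelow T := ⟨b, fun x hx => hx.1⟩
    have hbr : b ≤ sInf T := le_csInf hT fun x hx => hx.1
    obtain ⟨η, hη, h1, h2⟩ := loc (sInf T) (hb.trans_le hbr)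
    obtain ⟨x, hx, hx2⟩ := exists_lt_of_csInf_lt hT (lt_add_of_pos_right (sInf T) hη)
    have hx3 := csInf_le hbd hx
    have m1 : Mv F a (sInf T) := Mv.trans hF (hb.trans_le hx.1) hx.2.1 hx3 hx.2.2
      (h1 x hx3 (by linarith))
    have hm : max b (sInf T - η) ≤ sInf T := max_le hbr (by linarith)
    have m2 : Mv F a (max b (sInf T - η)) := Mv.trans hF (hb.trans_le hbr) (hx3.trans hx.2.1) hm m1
      (h2 _ (hb.trans_le (le_max_left _ _)) hm (by linarith [le_max_right b (sInf T - η)]))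
    have := csInf_le hbd ⟨le_max_left _ _, hm.trans (hx3.trans hx.2.1), m2⟩
    rwa [max_eq_left] at m2
    rcases le_max_iff.1 this with h | h <;> linarith

lemma allMv' {F : Set M} (hF : F.Finite) : ∀ a b, 0 < b → b ≤ a → Mv F a b := by
  obtain ⟨d, hd⟩ := exWinF hF
  refine allMv (2 * d) (-d) F hF fun P hP k hk => ?_
  have := hd P hP k hk
  push_cast; omega

def Good (F O : Set M) : Prop := ∃ w : ℤ → ℝ, (∃ N : ℕ, ∀ n, (N : ℤ) ≤ |n| → w n = 0) ∧
  (∀ n, Cmp F w n) ∧ ∃ n, ∀ P ∈ F, P ∈ O → 0 < ev w n P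

lemma mid {F O : Set M} (hF : F.Finite) {r : ℝ} (hr : 0 < r) {w : ℤ → ℝ} (p : Path F r⁻¹ r 0 0 w)
    (n : ℤ) (h : ∀ P ∈ F, P ∈ O → 0 < ev w n P) : Good F O := by
  obtain ⟨w1, p1⟩ := up hF (allMv' hF) hr
  obtain ⟨w2, p2⟩ := dn hF (allMv' hF) hr
  obtain ⟨w3, p3, -, n3, h3⟩ := glue hF hr (p1.mono hr.le le_rfl) p 0 n
  obtain ⟨w4, p4, h4, -⟩ := glue hF hr p3 (p2.mono le_rfl (inv_pos.2 hr).le) n3 0
  obtain ⟨N1, h1⟩ := p4.left
  obtain ⟨N2, h2⟩ := p4.right
  refine ⟨w4, ⟨N1.natAbs + N2.natAbs + 1, fun m hm => ?_⟩, p4.cmp, n3,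
    fun P hP hO => h4 P hP (h3 P hP (h P hP hO))⟩
  rcases le_abs.1 hm with hm | hm
  · have := (h2 (m - 1) (by omega)).1
    rwa [sub_add_cancel, zero_mul] at this
  · simpa using (h1 m (by omega)).1

lemma geo {F : Set M} {r : ℝ} (hr : 0 < r) (h : ∀ n, Cmp F (fun m => r ^ m) n) :
    Path F r⁻¹ r 0 0 (fun m => r ^ m) :=
  ⟨fun n => by positivity, ⟨0, fun n _ => ⟨by rw [zpow_add_one₀ hr.ne']; field_simp,
    fun _ => by positivity⟩⟩, ⟨0, fun n _ => ⟨by rw [zpow_add_one₀ hr.ne']; ring,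
    fun _ => by positivity⟩⟩, fun n => by rw [zero_mul]; positivity,
    fun n => by rw [zero_mul]; positivity, h⟩

theorem good {O : Set M} (hO : Spec O) : ∀ F : Set M, F.Finite → Good F O := by
  induction hO with
  | low =>
    intro F hF
    obtain ⟨δ, hδ, h⟩ := lowF hF
    have := h (fun m => δ ^ m) (fun m => by positivity)
      (fun m => by rw [zpow_add_one₀ hδ.ne', mul_comm])
    exact mid hF hδ (geo hδ fun n => (this n).1) 0 ((this 0).2 fun m => by positivity)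
  | high =>
    intro F hF
    obtain ⟨δ, hδ, h⟩ := highF hF
    have hδ' := inv_pos.2 hδ
    have := h (fun m => δ⁻¹ ^ m) (fun m => by positivity)
      (fun m => by rw [zpow_add_one₀ hδ'.ne']; apply le_of_eq; field_simp)
    exact mid hF hδ' (geo hδ' fun n => (this n).1) 0 ((this 0).2 fun m => by positivity)
  | neg _ ih =>
    intro F hF
    obtain ⟨w, ⟨N, hN⟩, h1, n, h2⟩ := ih (-F) hF.neg
    refine ⟨fun m => -w m, ⟨N, fun n hn => by simp [hN n hn]⟩, fun n => (h1 n).neg, n,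
      fun P hP hO => ?_⟩
    have := h2 (-P) (by simpa using hP) hO
    have e : ev (fun m => -w m) n P = (-1) * ev w n P := ev_congr fun k _ => by ring
    rw [map_neg] at this; linarith
  | @step r O hr _ ih =>
    intro F hF
    obtain ⟨v, ⟨N, hN⟩, h1, n, h2⟩ := ih _ (quo_fin r hF)
    obtain ⟨η, hη, hl⟩ := liftL hr hF
    let J := Finset.Ioo (-(N : ℤ)) N
    have hJ : ∀ j, j ∉ J → v j = 0 := fun j hj => hN j (by
      simp only [J, Finset.mem_Ioo] at hj
      rw [le_abs]; omega)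
    let z : ℤ → ℝ := fun m => ∑ j ∈ J, if j < m then v j * r ^ (m - 1 - j) else 0
    have hz : ∀ m, z (m + 1) - r * z m = v m := by
      intro m
      simp only [z, Finset.mul_sum, ← Finset.sum_sub_distrib]
      rw [Finset.sum_eq_single m]
      · simp
      · intro j _ hj
        by_cases h : j < m
        · rw [if_pos h, if_pos (by omega), show m + 1 - 1 - j = (m - 1 - j) + 1 by ring,
            zpow_add_one₀ hr.ne']; ring
        · rw [if_neg h, if_neg (by omega)]; simp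
      · intro h; simp [hJ m h]
    set K := ∑ j ∈ J, |v j| * r ^ (-1 - j)
    have hK : 0 ≤ K := Finset.sum_nonneg fun _ _ => by positivity
    have hzK : ∀ m, |z m| ≤ K * r ^ m := by
      intro m
      refine (Finset.abs_sum_le_sum_abs _ _).trans ?_
      rw [Finset.sum_mul]
      refine Finset.sum_le_sum fun j _ => ?_
      split_ifs
      · rw [abs_mul, abs_of_pos (zpow_pos hr _), mul_assoc, ← zpow_add₀ hr.ne']
        apply le_of_eq; congr 2; ring
      · rw [abs_zero]; positivity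
    have hvK : ∀ m, |v m| ≤ 2 * r * K * r ^ m := by
      intro m
      rw [← hz]
      have a1 := hzK (m + 1)
      have a2 := mul_le_mul_of_nonneg_left (hzK m) hr.le
      rw [zpow_add_one₀ hr.ne'] at a1
      refine (abs_sub _ _).trans ?_
      rw [abs_mul, abs_of_pos hr]; linarith
    obtain ⟨θ, hθ, t1, t2⟩ : ∃ θ > 0, θ * K ≤ 1 / 2 ∧ θ * (2 * r * K) ≤ η / 2 := by
      refine ⟨min (1 / 2 / (K + 1)) (η / 2 / (2 * r * K + 1)), by positivity, ?_, ?_⟩
      · refine (mul_le_mul_of_nonneg_right (min_le_left _ _) hK).trans ?_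
        rw [div_mul_eq_mul_div, div_le_iff₀ (by positivity)]; linarith
      · refine (mul_le_mul_of_nonneg_right (min_le_right _ _) (by positivity)).trans ?_
        rw [div_mul_eq_mul_div, div_le_iff₀ (by positivity)]; nlinarith
    let w : ℤ → ℝ := fun m => r ^ m + θ * z m
    have hw1 : ∀ m, r ^ m / 2 ≤ w m := fun m => by
      have a1 := mul_le_mul_of_nonneg_left (neg_le_of_abs_le (hzK m)) hθ.le
      have a2 := mul_le_mul_of_nonneg_right t1 (zpow_pos hr m).le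
      simp only [w]; nlinarith
    have hw0 : ∀ m, 0 < w m := fun m => lt_of_lt_of_le (by positivity) (hw1 m)
    have hw2 : ∀ m, w (m + 1) - r * w m = θ * v m := fun m => by
      simp only [w]; rw [← hz, zpow_add_one₀ hr.ne']; ring
    have hn : Near r η w := fun m => ⟨hw0 m, by
      rw [hw2, abs_mul, abs_of_pos hθ]
      have a1 := mul_le_mul_of_nonneg_left (hvK m) hθ.le
      have a2 := mul_le_mul_of_nonneg_right t2 (zpow_pos hr m).le
      have a3 := mul_le_mul_of_nonneg_left (hw1 m) hη.le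
      nlinarith⟩
    refine mid hF hr (w := w) ⟨fun m => (hw0 m).le, ⟨-N, fun m hm => ⟨?_, fun _ => hw0 m⟩⟩,
      ⟨N, fun m hm => ⟨?_, fun _ => hw0 m⟩⟩, fun m => by simpa using (hw0 _).le,
      fun m => by simpa using (hw0 _).le, fun m => (hl w hn m).2 ((h1 m).scale hθ.le hw2)⟩ n ?_
    · have := hw2 m
      rw [hN m (by rw [le_abs]; omega)] at this
      field_simp; linarith
    · have := hw2 m
      rw [hN m (by rw [le_abs]; omega)] at this
      linarith
    · rintro P hP (h | ⟨Q, hQ, rfl⟩)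
      · exact (hl w hn n).1 P hP h
      · rw [ev_mulL, ev_congr (w' := v) (n' := n) (c := θ) fun k _ => hw2 _]
        exact mul_pos hθ (h2 Q hP hQ)

end Pool.Agent.H.MP_96de0f_al
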