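import Pool.Agent.H.MP_96de0f_al.C

set_option autoImplicit false

namespace Pool.Agent.H.MP_96de0f_al

lemma ratHom {T : Set ℝ} (hT : T.Finite) : ∃ χ : ℝ →+ ℚ, ∀ s ∈ T, 0 < s → 0 < χ s := by
  let b := Module.Basis.ofVectorSpace ℚ ℝ
  obtain ⟨η, hη, h⟩ := ex_unif hT (fun s η => ∀ q : _ → ℚ, (∀ i, |b i - q i| < η) → 0 < s →
      0 < b.constr ℚ q s) (fun s η η' _ h1 h2 q hq => h2 q fun i => (hq i).trans_le h1) (by
    intro s _
    by_cases hs : 0 < s
    swap
    · exact ⟨1, one_pos, fun _ _ h => absurd h hs⟩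
    set A : ℝ := ∑ i ∈ (b.repr s).support, |((b.repr s i : ℚ) : ℝ)|
    have hA : 0 ≤ A := Finset.sum_nonneg fun _ _ => abs_nonneg _
    refine ⟨s / (A + 1), by positivity, fun q hq _ => ?_⟩
    have e1 : ((b.constr ℚ q s : ℚ) : ℝ) = ∑ i ∈ (b.repr s).support, (b.repr s i : ℝ) * q i := by
      rw [Module.Basis.constr_apply, Finsupp.sum]; simp
    have e2 : s = ∑ i ∈ (b.repr s).support, (b.repr s i : ℝ) * b i := by
      conv_lhs => rw [← b.linearCombination_repr s]
      rw [Finsupp.linearCombination_apply, Finsupp.sum]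
      simp [Rat.smul_def]
    have h1 : s - (b.constr ℚ q s : ℚ) ≤ A * (s / (A + 1)) := by
      have e3 : s - (b.constr ℚ q s : ℚ) = ∑ i ∈ (b.repr s).support,
          ((b.repr s i : ℝ) * b i - (b.repr s i : ℝ) * q i) := by
        rw [Finset.sum_sub_distrib, ← e1, ← e2]
      rw [e3, Finset.sum_mul]
      refine Finset.sum_le_sum fun i _ => ?_
      rw [← mul_sub]
      exact (le_abs_self _).trans (by
        rw [abs_mul]; exact mul_le_mul_of_nonneg_left (hq i).le (abs_nonneg _))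
    have h2 : A * (s / (A + 1)) < s := by
      rw [← mul_div_assoc, div_lt_iff₀ (by positivity)]; nlinarith
    have : (0 : ℝ) < (b.constr ℚ q s : ℚ) := by linarith
    exact_mod_cast this)
  choose q hq using fun i => exists_rat_near (b i) hη
  exact ⟨(b.constr ℚ q).toAddMonoidHom, fun s hs => h s hs q hq⟩

abbrev OO : Type := {O : Set M // Spec O}

def Cp (F : Set M) (O : OO) (φ : M →+ ℚ) : Prop := ∀ P ∈ F, 0 < φ P → P ∈ O.1

structure Data (F : Set M) (φ : ℤ → M →+ ℚ) (Os : ℤ → OO) : Prop where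
  sh : ∀ n t P, φ n (sh t P) = φ (n + t) P
  fin : ∀ P, {n | φ n P ≠ 0}.Finite
  int : ∀ n, ∀ P ∈ F, ∃ z : ℤ, φ n P = z
  cp : ∀ n, Cp F (Os n) (φ n)

lemma Data.mono {F F' : Set M} {φ : ℤ → M →+ ℚ} {Os : ℤ → OO} (h : Data F φ Os) (hF : F' ⊆ F) :
    Data F' φ Os :=
  ⟨h.sh, h.fin, fun n P hP => h.int n P (hF hP), fun n P hP => h.cp n P (hF hP)⟩

theorem goodQ (O : OO) {F : Set M} (hF : F.Finite) : ∃ φ Os, Data F φ Os ∧
    ∃ n, Os n = O ∧ ∀ P ∈ F, P ≠ 0 → φ n P ≠ 0 := by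
  classical
  obtain ⟨w, ⟨N, hN⟩, h1, n0, h2⟩ := good O.2 _ (hF.union hF.neg)
  have hfin : ∀ P, {n | ev w n P ≠ 0}.Finite := by
    intro P
    obtain ⟨d, hd⟩ := exWin P
    refine (Set.finite_Icc (-(N + d : ℤ)) (N + d)).subset fun n hn => ?_
    by_contra h
    apply hn
    rw [ev_apply]
    refine Finset.sum_eq_zero fun k hk => ?_
    have := hd k (Finsupp.mem_support_iff.1 hk)
    rw [Set.mem_Icc] at h
    rw [hN _ (by rw [le_abs]; omega), mul_zero]
  have hT : {s | ∃ P ∈ F ∪ -F, ∃ n, s = ev w n P}.Finite := by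
    refine (((hF.union hF.neg).biUnion fun P _ => (hfin P).image fun n => ev w n P).insert 0).subset ?_
    rintro _ ⟨P, hP, n, rfl⟩
    by_cases h : ev w n P = 0
    · exact Or.inl h
    · exact Or.inr (Set.mem_biUnion hP ⟨n, h, rfl⟩)
  obtain ⟨χ, hχ⟩ := ratHom hT
  obtain ⟨D, hD, hD'⟩ : ∃ D : ℕ, 0 < D ∧ ∀ s ∈ hT.toFinset, (χ s).den ∣ D :=
    ⟨∏ s ∈ hT.toFinset, (χ s).den, Finset.prod_pos fun s _ => (χ s).den_pos,
      fun s hs => Finset.dvd_prod_of_mem _ hs⟩
  have hD0 : (0 : ℚ) < D := by exact_mod_cast hD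
  choose Os hOs hOs' using h1
  let φ : ℤ → M →+ ℚ := fun n => (AddMonoidHom.mulLeft (D : ℚ)).comp
    (χ.comp (ev w n).toAddMonoidHom)
  have hφ : ∀ n P, φ n P = D * χ (ev w n P) := fun _ _ => rfl
  have hpos : ∀ n, ∀ P ∈ F, 0 < φ n P → 0 < ev w n P := by
    intro n P hP h
    rw [hφ] at h
    have h3 := pos_of_mul_pos_left (b := (D : ℚ)) (by rwa [mul_comm]) hD0.le
    rcases lt_trichotomy (ev w n P) 0 with h4 | h4 | h4
    · have := hχ _ ⟨-P, Or.inr (by simpa using hP), n, rfl⟩ (by rw [map_neg]; linarith)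
      rw [map_neg, map_neg] at this; linarith
    · rw [h4, map_zero] at h3; exact absurd h3 (lt_irrefl _)
    · exact h4
  refine ⟨φ, fun n => if n = n0 then O else ⟨Os n, hOs n⟩, ⟨fun n t P => ?_, fun P => ?_,
    fun n P hP => ?_, fun n P hP h => ?_⟩, n0, if_pos rfl, fun P hP h0 => ?_⟩
  · rw [hφ, hφ, ev_sh]
  · exact (hfin P).subset fun n hn h => hn (by rw [hφ, h]; simp)
  · obtain ⟨c, hc⟩ := hD' (ev w n P) (hT.mem_toFinset.2 ⟨P, Or.inl hP, n, rfl⟩)
    refine ⟨c * (χ (ev w n P)).num, ?_⟩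
    rw [hφ, hc]; push_cast
    rw [← Rat.mul_den_eq_num]; ring
  · have h3 := hpos n P hP h
    by_cases hn : n = n0
    · subst hn
      simp only [if_pos]
      rcases O.2.ord.tri P with rfl | h4 | h4
      · simp at h3
      · exact h4
      · have := h2 (-P) (Or.inr (by simpa using hP)) h4
        rw [map_neg] at this; linarith
    · simp only [if_neg hn]
      exact hOs' n P (Or.inl hP) h3
  · rw [hφ]
    refine mul_ne_zero hD0.ne' ?_
    rcases O.2.ord.tri P with h4 | h4 | h4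
    · exact absurd h4 h0
    · exact (hχ _ ⟨P, Or.inl hP, n0, rfl⟩ (h2 P (Or.inl hP) h4)).ne'
    · have hP' : -P ∈ F ∪ -F := Or.inr (by simpa using hP)
      have := hχ _ ⟨-P, hP', n0, rfl⟩ (h2 _ hP' h4)
      rw [map_neg, map_neg] at this; linarith

@[ext] structure Gam (O : OO) where
  p : M
  t : ℤ

noncomputable instance (O : OO) : Group (Gam O) where
  mul x y := ⟨sh y.t x.p + y.p, x.t + y.t⟩
  one := ⟨0, 0⟩
  inv x := ⟨-sh (-x.t) x.p, -x.t⟩
  mul_assoc x y z := by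
    refine Gam.ext ?_ (add_assoc _ _ _)
    change sh z.t (sh y.t x.p + y.p) + z.p = sh (y.t + z.t) x.p + (sh z.t y.p + z.p)
    rw [map_add, sh_sh, add_assoc, add_comm z.t]
  one_mul x := by
    refine Gam.ext ?_ (zero_add _)
    change sh x.t 0 + x.p = x.p
    simp
  mul_one x := by
    refine Gam.ext ?_ (add_zero _)
    change sh 0 x.p + 0 = x.p
    simp
  inv_mul_cancel x := by
    refine Gam.ext ?_ (neg_add_cancel _)
    change sh x.t (-sh (-x.t) x.p) + x.p = 0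
    simp [sh_sh]

variable {O : OO}

@[simp] lemma mul_p (x y : Gam O) : (x * y).p = sh y.t x.p + y.p := rfl
@[simp] lemma mul_t (x y : Gam O) : (x * y).t = x.t + y.t := rfl
@[simp] lemma one_p : (1 : Gam O).p = 0 := rfl
@[simp] lemma one_t : (1 : Gam O).t = 0 := rfl
@[simp] lemma inv_p (x : Gam O) : x⁻¹.p = -sh (-x.t) x.p := rfl
@[simp] lemma inv_t (x : Gam O) : x⁻¹.t = -x.t := rfl

def Lt (x y : Gam O) : Prop := x.t < y.t ∨ (x.t = y.t ∧ y.p - x.p ∈ O.1)

instance : IsStrictTotalOrder (Gam O) Lt where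
  irrefl x := by
    rintro (h | ⟨-, h⟩)
    · exact lt_irrefl _ h
    · exact O.2.ord.zero (by simpa using h)
  trans x y z := by
    rintro (h | ⟨h, h'⟩) (g | ⟨g, g'⟩)
    · exact Or.inl (h.trans g)
    · exact Or.inl (g ▸ h)
    · exact Or.inl (h ▸ g)
    · exact Or.inr ⟨h.trans g, by simpa using O.2.ord.add _ g' _ h'⟩
  trichotomous x y h1 h2 := by
    rcases lt_trichotomy x.t y.t with h | h | h
    · exact absurd (Or.inl h) h1
    · rcases O.2.ord.tri (y.p - x.p) with g | g | g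
      · exact Gam.ext (sub_eq_zero.1 g).symm h
      · exact absurd (Or.inr ⟨h, g⟩) h1
      · exact absurd (Or.inr ⟨h.symm, by simpa using g⟩) h2
    · exact absurd (Or.inl h) h2

open Classical in
noncomputable instance : LinearOrder (Gam O) := linearOrderOfSTO Lt

lemma lt_def (x y : Gam O) : x < y ↔ x.t < y.t ∨ (x.t = y.t ∧ y.p - x.p ∈ O.1) := Iff.rfl

instance : MulLeftMono (Gam O) := ⟨fun a x y h => by
  rcases h.eq_or_lt with rfl | h
  · exact le_rfl
  · refine le_of_lt ?_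
    rw [lt_def] at h ⊢
    rcases h with h | ⟨h, h'⟩
    · left; simpa using h
    · right; simpa [h] using h'⟩

instance : MulRightMono (Gam O) := ⟨fun a x y h => by
  rcases h.eq_or_lt with rfl | h
  · exact le_rfl
  · refine le_of_lt ?_
    change x * a < y * a
    rw [lt_def] at h ⊢
    rcases h with h | ⟨h, h'⟩
    · left; simpa using h
    · right; simpa [h] using O.2.ord.sh a.t _ h'⟩

lemma le_cp {F : Set M} {φ : M →+ ℚ} (h : Cp F O φ) {x y : Gam O} (hF : x.p - y.p ∈ F)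
    (hxy : x ≤ y) : x.t < y.t ∨ (x.t = y.t ∧ φ x.p ≤ φ y.p) := by
  rcases hxy.eq_or_lt with rfl | h1
  · exact Or.inr ⟨rfl, le_rfl⟩
  · rcases (lt_def _ _).1 h1 with h2 | ⟨h2, h3⟩
    · exact Or.inl h2
    · refine Or.inr ⟨h2, ?_⟩
      by_contra h4
      exact O.2.ord.asymm h3 (by simpa using h _ hF (by rw [map_sub]; linarith))

end Pool.Agent.H.MP_96de0f_al
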