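import Pool.Agent.H.MP_96de0f_al.D

set_option autoImplicit false

namespace Pool.Agent.H.MP_96de0f_al

open scoped Pointwise

abbrev PG : Type := ∀ O : OO, Gam O

instance : MulLeftMono PG := ⟨fun a _ _ h O => mul_le_mul_right (h O) (a O)⟩
instance : MulRightMono PG := ⟨fun a _ _ h O => mul_le_mul_left (h O) (a O)⟩

def rg (h : PG) : Set M := Set.range fun O => (h O).p

def LD (h : PG) (F : Set M) : Prop :=
  ∀ (O O' : OO) (φ : M →+ ℚ), Cp F O φ → Cp F O' φ → φ (h O).p = φ (h O').p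

lemma Cp.mono {F F' : Set M} {O : OO} {φ : M →+ ℚ} (h : Cp F O φ) (hF : F' ⊆ F) : Cp F' O φ :=
  fun P hP => h P (hF hP)

lemma Cp.sh {F : Set M} {O : OO} {φ : M →+ ℚ} (t : ℤ) (h : Cp (sh t '' F) O φ) :
    Cp F O (φ.comp (sh t).toAddMonoidHom) := fun P hP h1 => by
  have := O.2.ord.sh (-t) _ (h _ ⟨P, hP, rfl⟩ h1)
  simpa [sh_sh] using this

def SS : Subgroup PG where
  carrier := {h | (∃ t, ∀ O, (h O).t = t) ∧ (rg h).Finite ∧ ∃ F, F.Finite ∧ LD h F}
  one_mem' := ⟨⟨0, fun _ => rfl⟩, (Set.finite_singleton 0).subset (by rintro _ ⟨O, rfl⟩; rfl),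
    ∅, Set.finite_empty, fun _ _ _ _ _ => rfl⟩
  mul_mem' := by
    rintro x y ⟨⟨s, hs⟩, r1, F1, f1, l1⟩ ⟨⟨t, ht⟩, r2, F2, f2, l2⟩
    refine ⟨⟨s + t, fun O => by simp [hs, ht]⟩, ((r1.image (sh t)).add r2).subset ?_,
      sh t '' F1 ∪ F2, (f1.image _).union f2, fun O O' φ h h' => ?_⟩
    · rintro _ ⟨O, rfl⟩
      exact ⟨_, ⟨_, ⟨O, rfl⟩, rfl⟩, _, ⟨O, rfl⟩, by simp [ht]⟩
    · have e1 := l1 O O' _ (h.mono Set.subset_union_left).sh (h'.mono Set.subset_union_left).sh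
      have e2 := l2 O O' _ (h.mono Set.subset_union_right) (h'.mono Set.subset_union_right)
      simp only [Pi.mul_apply, mul_p, ht, map_add, e2]
      congr 1
  inv_mem' := by
    rintro x ⟨⟨s, hs⟩, r1, F1, f1, l1⟩
    refine ⟨⟨-s, fun O => by simp [hs]⟩, ((r1.image (sh (-s))).neg).subset ?_,
      sh (-s) '' F1, f1.image _, fun O O' φ h h' => ?_⟩
    · rintro _ ⟨O, rfl⟩
      exact ⟨_, ⟨O, rfl⟩, by simp [hs]⟩
    · have e1 := l1 O O' _ h.sh h'.sh
      simp only [Pi.inv_apply, inv_p, hs, map_neg]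
      congr 1

lemma SS_sup {x y : PG} (hx : x ∈ SS) (hy : y ∈ SS) : x ⊔ y ∈ SS := by
  obtain ⟨⟨s, hs⟩, r1, F1, f1, l1⟩ := id hx
  obtain ⟨⟨t, ht⟩, r2, F2, f2, l2⟩ := id hy
  rcases lt_trichotomy s t with h | rfl | h
  · rwa [sup_eq_right.2 fun O => le_of_lt (Or.inl (by rw [hs, ht]; exact h))]
  swap
  · rwa [sup_eq_left.2 fun O => le_of_lt (Or.inl (by rw [hs, ht]; exact h))]
  have key : ∀ O φ, Cp ((rg x - rg y) ∪ (rg y - rg x)) O φ →
      φ ((x ⊔ y) O).p = max (φ (x O).p) (φ (y O).p) := by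
    intro O φ h
    rw [Pi.sup_apply]
    rcases le_total (x O) (y O) with g | g
    · rw [sup_eq_right.2 g, max_eq_right]
      rcases le_cp h (Or.inl ⟨_, ⟨O, rfl⟩, _, ⟨O, rfl⟩, rfl⟩) g with g' | g'
      · simp [hs, ht] at g'
      · exact g'.2
    · rw [sup_eq_left.2 g, max_eq_left]
      rcases le_cp h (Or.inr ⟨_, ⟨O, rfl⟩, _, ⟨O, rfl⟩, rfl⟩) g with g' | g'
      · simp [hs, ht] at g'
      · exact g'.2
  refine ⟨⟨s, fun O => ?_⟩, (r1.union r2).subset ?_, ((rg x - rg y) ∪ (rg y - rg x)) ∪ (F1 ∪ F2),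
    ((r1.sub r2).union (r2.sub r1)).union (f1.union f2), fun O O' φ h h' => ?_⟩
  · rw [Pi.sup_apply]
    rcases le_total (x O) (y O) with g | g
    · rw [sup_eq_right.2 g, ht]
    · rw [sup_eq_left.2 g, hs]
  · rintro _ ⟨O, rfl⟩
    simp only [Pi.sup_apply]
    rcases le_total (x O) (y O) with g | g
    · rw [sup_eq_right.2 g]; exact Or.inr ⟨O, rfl⟩
    · rw [sup_eq_left.2 g]; exact Or.inl ⟨O, rfl⟩
  · rw [key O φ (h.mono Set.subset_union_left), key O' φ (h'.mono Set.subset_union_left),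
      l1 O O' φ (h.mono fun _ g => Or.inr (Or.inl g)) (h'.mono fun _ g => Or.inr (Or.inl g)),
      l2 O O' φ (h.mono fun _ g => Or.inr (Or.inr g)) (h'.mono fun _ g => Or.inr (Or.inr g))]

lemma SS_inf {x y : PG} (hx : x ∈ SS) (hy : y ∈ SS) : x ⊓ y ∈ SS := by
  have := SS.inv_mem (SS_sup (SS.inv_mem hx) (SS.inv_mem hy))
  rwa [inv_sup, inv_inv, inv_inv] at this

def HH : Type := SS

noncomputable instance : Group HH := inferInstanceAs (Group SS)
noncomputable instance : Lattice HH :=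
  Subtype.lattice (P := fun x => x ∈ SS) (fun _ _ => SS_sup) (fun _ _ => SS_inf)

noncomputable def vl : HH →* PG := SS.subtype

lemma vl_inj : Function.Injective vl := Subtype.val_injective
lemma vl_mem (h : HH) : vl h ∈ SS := h.2

instance : MulLeftMono HH := ⟨fun a x y h => show vl a * vl x ≤ vl a * vl y from
  mul_le_mul_right (show vl x ≤ vl y from h) _⟩
instance : MulRightMono HH := ⟨fun a x y h => show vl x * vl a ≤ vl y * vl a from
  mul_le_mul_left (show vl x ≤ vl y from h) _⟩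

lemma vl_si {m : ℕ} (x : Fin (m + 1) → Fin (m + 1) → HH) (O : OO) :
    vl (Finset.univ.sup' Finset.univ_nonempty fun i => Finset.univ.inf' Finset.univ_nonempty
      fun j => x i j) O = Finset.univ.sup' Finset.univ_nonempty fun i =>
        Finset.univ.inf' Finset.univ_nonempty fun j => vl (x i j) O := by
  rw [Finset.apply_sup'_eq_sup'_comp _ (fun h : HH => vl h O) fun _ _ => rfl]
  congr 1
  funext i
  exact Finset.apply_inf'_eq_inf'_comp _ (fun h : HH => vl h O) fun _ _ => rfl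

lemma si_map {m : ℕ} {A B : Type} [LinearOrder A] [LinearOrder B]
    (x : Fin (m + 1) → Fin (m + 1) → A) (y : Fin (m + 1) → Fin (m + 1) → B)
    (h : ∀ i j i' j', x i j ≤ x i' j' → y i j ≤ y i' j') :
    ∃ a b, (Finset.univ.sup' Finset.univ_nonempty fun i => Finset.univ.inf' Finset.univ_nonempty
      fun j => x i j) = x a b ∧ (Finset.univ.sup' Finset.univ_nonempty fun i =>
        Finset.univ.inf' Finset.univ_nonempty fun j => y i j) = y a b := by
  choose J _ hJ using fun i => Finset.exists_mem_eq_inf' Finset.univ_nonempty (x i)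
  have hy : ∀ i, Finset.univ.inf' Finset.univ_nonempty (y i) = y i (J i) := fun i =>
    le_antisymm (Finset.inf'_le _ (Finset.mem_univ _)) (Finset.le_inf' _ _ fun j _ =>
      h _ _ _ _ (hJ i ▸ Finset.inf'_le _ (Finset.mem_univ _)))
  obtain ⟨a, -, ha⟩ := Finset.exists_mem_eq_sup' Finset.univ_nonempty fun i => x i (J i)
  refine ⟨a, J a, ?_, ?_⟩
  · simp only [hJ]; exact ha
  · simp only [hy]
    exact le_antisymm (Finset.sup'_le _ _ fun i _ => h _ _ _ _
      (ha ▸ Finset.le_sup' (fun i => x i (J i)) (Finset.mem_univ i)))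
      (Finset.le_sup' (fun i => y i (J i)) (Finset.mem_univ a))

def O0 : OO := ⟨low, Spec.low⟩

noncomputable def tp (h : HH) : ℤ := (vl h O0).t

lemma tp_eq (h : HH) (O : OO) : (vl h O).t = tp h := by
  obtain ⟨t, ht⟩ := (vl_mem h).1
  rw [tp, ht, ht]

def mkP (t : ℤ) (f : ℤ → ℤ) : Equiv.Perm (ℤ × ℤ) where
  toFun ω := (ω.1 + t, ω.2 + f ω.1)
  invFun ω := (ω.1 - t, ω.2 - f (ω.1 - t))
  left_inv ω := by simp
  right_inv ω := by simp

noncomputable def Ph (φ : ℤ → M →+ ℚ) (Os : ℤ → OO) (h : HH) : Equiv.Perm (ℤ × ℤ) :=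
  mkP (tp h) fun a => ⌊φ a (vl h (Os a)).p⌋

lemma Ph_apply (φ : ℤ → M →+ ℚ) (Os : ℤ → OO) (h : HH) (a b : ℤ) :
    Ph φ Os h (a, b) = (a + tp h, b + ⌊φ a (vl h (Os a)).p⌋) := rfl

lemma Ph_one (φ : ℤ → M →+ ℚ) (Os : ℤ → OO) : Ph φ Os 1 = 1 := by
  ext1 ⟨a, b⟩
  simp [Ph_apply, tp]

lemma Ph_mul (x y : HH) : ∃ F : Set M, F.Finite ∧ ∀ φ Os, Data F φ Os →
    Ph φ Os (x * y) = Ph φ Os x * Ph φ Os y := by
  obtain ⟨-, -, F1, f1, l1⟩ := vl_mem x
  refine ⟨rg (vl y) ∪ (F1 ∪ sh (tp y) '' F1), (vl_mem y).2.1.union (f1.union (f1.image _)),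
    fun φ Os d => ?_⟩
  ext1 ⟨a, b⟩
  rw [Equiv.Perm.mul_apply, Ph_apply, Ph_apply, Ph_apply]
  have e1 : tp (x * y) = tp x + tp y := by simp [tp]
  have e2 : φ (a + tp y) (vl x (Os a)).p = φ (a + tp y) (vl x (Os (a + tp y))).p := by
    refine l1 _ _ _ ?_ ((d.cp _).mono fun _ g => Or.inr (Or.inl g))
    have := ((d.cp a).mono fun _ g => Or.inr (Or.inr g)).sh
    intro P hP h
    exact this P hP (by rw [← d.sh] at h; exact h)
  obtain ⟨z, hz⟩ := d.int a (vl y (Os a)).p (Or.inl ⟨_, rfl⟩)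
  rw [map_mul, Pi.mul_apply, mul_p, map_add, tp_eq, d.sh, e2, hz, Int.floor_add_intCast,
    Int.floor_intCast, e1]
  congr 1 <;> ring

lemma Ph_word {k : ℕ} (x : Fin k → HH) (u : FreeGroup (Fin k)) : ∃ F : Set M, F.Finite ∧
    ∀ φ Os, Data F φ Os → FreeGroup.lift (fun l => Ph φ Os (x l)) u =
      Ph φ Os (FreeGroup.lift x u) := by
  induction u using FreeGroup.induction_on with
  | C1 => exact ⟨∅, Set.finite_empty, fun φ Os _ => by simp [Ph_one]⟩
  | of l => exact ⟨∅, Set.finite_empty, fun φ Os _ => by simp⟩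
  | inv_of l _ =>
    obtain ⟨F, f, h⟩ := Ph_mul (x l)⁻¹ (x l)
    refine ⟨F, f, fun φ Os d => ?_⟩
    have := h φ Os d
    rw [inv_mul_cancel, Ph_one, eq_comm, mul_eq_one_iff_eq_inv] at this
    simp [this]
  | mul u v hu hv =>
    obtain ⟨F1, f1, h1⟩ := hu
    obtain ⟨F2, f2, h2⟩ := hv
    obtain ⟨F3, f3, h3⟩ := Ph_mul (FreeGroup.lift x u) (FreeGroup.lift x v)
    refine ⟨F1 ∪ (F2 ∪ F3), f1.union (f2.union f3), fun φ Os d => ?_⟩
    rw [map_mul, map_mul, h1 φ Os (d.mono Set.subset_union_left),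
      h2 φ Os (d.mono fun _ g => Or.inr (Or.inl g)), h3 φ Os (d.mono fun _ g => Or.inr (Or.inr g))]

lemma Ph_si {k m : ℕ} (x : Fin k → HH) (u : Fin (m + 1) → Fin (m + 1) → FreeGroup (Fin k)) :
    ∃ F : Set M, F.Finite ∧ rg (vl (Finset.univ.sup' Finset.univ_nonempty fun i =>
      Finset.univ.inf' Finset.univ_nonempty fun j => FreeGroup.lift x (u i j))) ⊆ F ∧
      ∀ φ Os, Data F φ Os → ∀ ω : ℤ × ℤ,
      (Finset.univ.sup' Finset.univ_nonempty fun i => Finset.univ.inf' Finset.univ_nonempty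
        fun j => toLex (FreeGroup.lift (fun l => Ph φ Os (x l)) (u i j) ω)) =
      toLex (Ph φ Os (Finset.univ.sup' Finset.univ_nonempty fun i =>
        Finset.univ.inf' Finset.univ_nonempty fun j => FreeGroup.lift x (u i j)) ω) := by
  choose F f hF using fun i j => Ph_word x (u i j)
  let R : Set M := ⋃ i, ⋃ j, rg (vl (FreeGroup.lift x (u i j)))
  have hR : R.Finite := Set.finite_iUnion fun i => Set.finite_iUnion fun j => (vl_mem _).2.1
  have mR : ∀ i j O, (vl (FreeGroup.lift x (u i j)) O).p ∈ R := fun i j O =>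
    Set.mem_iUnion₂.2 ⟨i, j, O, rfl⟩
  refine ⟨_ ∪ ((⋃ i, ⋃ j, F i j) ∪ (R - R)), (vl_mem _).2.1.union
    ((Set.finite_iUnion fun i => Set.finite_iUnion fun j => f i j).union (hR.sub hR)),
    Set.subset_union_left, fun φ Os d ⟨a, b⟩ => ?_⟩
  have e : ∀ i j, FreeGroup.lift (fun l => Ph φ Os (x l)) (u i j) = _ := fun i j =>
    hF i j φ Os (d.mono fun _ g => Or.inr (Or.inl (Set.mem_iUnion₂.2 ⟨i, j, g⟩)))
  simp only [e]
  obtain ⟨i0, j0, h1, h2⟩ := si_map (fun i j => vl (FreeGroup.lift x (u i j)) (Os a))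
    (fun i j => toLex (Ph φ Os (FreeGroup.lift x (u i j)) (a, b))) (by
      intro i j i' j' h
      rw [Ph_apply, Ph_apply, Prod.Lex.toLex_le_toLex]
      rcases le_cp (d.cp a) (Or.inr (Or.inr ⟨_, mR i j _, _, mR i' j' _, rfl⟩)) h with g | ⟨g, g'⟩
      · left; simpa [tp_eq] using g
      · right
        rw [tp_eq, tp_eq] at g
        exact ⟨by rw [g], by simpa using Int.floor_mono g'⟩)
  rw [h2, Ph_apply, Ph_apply, ← tp_eq _ (Os a), ← tp_eq _ (Os a), vl_si, h1]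

theorem HH_sat (k m : ℕ) (u v : Fin (m + 1) → Fin (m + 1) → FreeGroup (Fin k))
    (hG : ∀ x : Fin k → Equiv.Perm (ℤ × ℤ),
          (∀ l, ∃ n : ℤ, ∃ f : ℤ →₀ ℤ, ∀ a b : ℤ, x l (a, b) = (a + n, b + f a)) →
          (∀ ω : ℤ × ℤ, Finset.univ.sup' Finset.univ_nonempty (fun i => Finset.univ.inf' Finset.univ_nonempty (fun j => toLex ((FreeGroup.lift x (u i j)) ω))) = toLex ω) →
          (∀ ω : ℤ × ℤ, Finset.univ.sup' Finset.univ_nonempty (fun i => Finset.univ.inf' Finset.univ_nonempty (fun j => toLex ((FreeGroup.lift x (v i j)) ω))) = toLex ω))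
    (x : Fin k → HH)
    (hu : Finset.univ.sup' Finset.univ_nonempty (fun i => Finset.univ.inf' Finset.univ_nonempty (fun j => FreeGroup.lift x (u i j))) = 1) :
    Finset.univ.sup' Finset.univ_nonempty (fun i => Finset.univ.inf' Finset.univ_nonempty (fun j => FreeGroup.lift x (v i j))) = 1 := by
  apply vl_inj
  funext O
  obtain ⟨F1, f1, -, h1⟩ := Ph_si x u
  obtain ⟨F2, f2, r2, h2⟩ := Ph_si x v
  obtain ⟨φ, Os, d, n, rfl, hn⟩ := goodQ O (f1.union f2)
  have key := hG (fun l => Ph φ Os (x l)) (fun l => ⟨tp (x l), Finsupp.ofSupportFinite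
    (fun a => ⌊φ a (vl (x l) (Os a)).p⌋) (((vl_mem (x l)).2.1.biUnion fun P _ => d.fin P).subset
      fun a ha => Set.mem_biUnion (x := (vl (x l) (Os a)).p) ⟨_, rfl⟩ fun h => ha (by simp [h])),
      fun a b => rfl⟩) (fun ω => by
        rw [h1 φ Os (d.mono Set.subset_union_left), hu, Ph_one]; rfl) (n, 0)
  rw [h2 φ Os (d.mono Set.subset_union_right), Ph_apply] at key
  set y := Finset.univ.sup' Finset.univ_nonempty (fun i => Finset.univ.inf' Finset.univ_nonempty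
    (fun j => FreeGroup.lift x (v i j)))
  have k1 : n + tp y = n := congrArg (fun z => (ofLex z).1) key
  have k2 : 0 + ⌊φ n (vl y (Os n)).p⌋ = 0 := congrArg (fun z => (ofLex z).2) key
  have hm : (vl y (Os n)).p ∈ F1 ∪ F2 := Or.inr (r2 ⟨_, rfl⟩)
  obtain ⟨z, hz⟩ := d.int n _ hm
  refine Gam.ext ?_ (by rw [tp_eq]; simpa using k1)
  by_contra h0
  apply hn _ hm h0
  rw [hz] at k2 ⊢
  simpa using k2

noncomputable def cst (P : M) (t : ℤ) : HH := ⟨fun _ => ⟨P, t⟩, ⟨t, fun _ => rfl⟩,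
  (Set.finite_singleton P).subset (by rintro _ ⟨O, rfl⟩; rfl), ∅, Set.finite_empty,
  fun _ _ _ _ _ => rfl⟩

lemma HH_nc : ∃ a b : HH, a * b ≠ b * a := by
  refine ⟨cst (Finsupp.single 0 1) 0, cst 0 1, fun h => ?_⟩
  have := congrArg (fun z => (vl z O0).p 0) h
  simp only [map_mul, Pi.mul_apply, mul_p] at this
  change (sh 1 (Finsupp.single 0 1) + 0) 0 = (sh 0 0 + Finsupp.single (0 : ℤ) (1 : ℝ)) 0 at this
  simp at this

lemma HH_q (x y : HH) (h : x ⊓ (y⁻¹ * x * y) = 1) : x = 1 := by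
  apply vl_inj
  funext O
  have h1 : vl x O ⊓ ((vl y O)⁻¹ * vl x O * vl y O) = 1 := congrArg (fun z => vl z O) h
  change vl x O = 1
  rcases le_total (vl x O) ((vl y O)⁻¹ * vl x O * vl y O) with g | g
  · rwa [inf_eq_left.2 g] at h1
  · rw [inf_eq_right.2 g] at h1
    calc vl x O = vl y O * ((vl y O)⁻¹ * vl x O * vl y O) * (vl y O)⁻¹ := by group
      _ = 1 := by rw [h1]; group

end Pool.Agent.H.MP_96de0f_al
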